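import Mathlib
import Pool.Agent.N848.AW.AlgS
import Pool.Agent.N848.AW.MqW
import Pool.Agent.N848.AW.Den

/-!
# The Abel–Jacobi maps and the Bloch–Kato Selmer groups of CM curves over `ℚ(√-7)`, all weights,
# over multiquadratic extensions: natural density

`K = ℚ(√-7)` with ring of integers `ℤ[ω]`, `ω² = ω - 2`; `(2) = (ω) (1 - ω)`. Every elliptic curve
over `K` with complex multiplication by `ℤ[ω]` is one of the
`E_D : y² = x³ + 3 (1 - ω) D x² + ω⁴ D² x`. The group `Gal(ℚ̄/K)` acts on the `2`-adic Tate module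
of `E_D` by two characters, `κ` on the `ω`-primary part and `κ'` on the `(1 - ω)`-primary part. Put
`V_j = ℚ_2(κ ^ j κ' ^ (1 - j))` for an integer `j`. Over any extension `L` of `K`, the `2`-adic
realization of the motive `h^{2i+1}(E_D^N)(i+1)`, of weight `-1`, is a direct sum of copies of the
`V_j`, `-i ≤ j ≤ i + 1`.

Let `D` run over the squarefree elements of `ℤ[ω]` which are congruent to `5` modulo `8` and prime to
`√-7`; there is no condition on the prime factors of `D`. `D` is called good if two explicit systems of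
linear equations over `𝔽_2`, given by the quadratic residue symbols of the prime divisors, have only the
constant solutions.

Theorem. (1) Let `L = K(√d_1, …, √d_n)`, and let `M` be such that all the `M ∏_{i ∈ T} d_i` are good
up to squares. Then `H¹_f(L, V_j) = 0` for the curve `E_M` and for **all** integers `j`. So the
linearized Abel–Jacobi maps of all the motives `h^{2i+1}(E_M^N)(i+1)` over `L` are surjective onto
the Bloch–Kato Selmer groups, at the prime `2`, which are zero.
(2) For instance this holds for all good `M` and `L = K`, and for all good `M`, `D` and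
`L = K(√(M D))`.
(3) The natural density of the good `D` in the class is exactly
`(1/2) ∏_{i ≥ 1} (1 - 2^(-i)) = 0.1443...`, and the class has positive lower density in `ℤ[ω]`.

Proof. A normalised cocycle has a reduction modulo `2`, which is given by an element `δ` of `K` up to
squares. The local conditions are equations for the quadratic symbols of `δ`; at the strict place
above `2` one of `δ`, `± D δ` is a square modulo the cube of the place, the sign being the parity
of `j`. The supplementary laws of quadratic reciprocity over `K` turn all the conditions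
into the two systems or their transposes. The density: see `Pool/Agent/N848/AW/Stm.lean`.

The density is joint work of this team: helper849, helper691, helper279 (law of the random matrices),
helper701, helper92 (the two systems), helper615 (boxes), helper568 (asymptotics), helper169 (character
sums), helper402, helper34, helper763, helper27; it rests on project QK of helper426
(`Pool/Agent/R426/QK`).
-/

set_option autoImplicit false

namespace Pool.Agent.Results.MP_009fd8_ag.AllWeightsNaturalDensity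

open WeierstrassCurve Filter Topology
open scoped Classical

/-! ### The curves -/

/-- An algebraic closure of `ℚ`. -/
abbrev QBar : Type := AlgebraicClosure ℚ

/-- The ring of integers `ℤ[ω]`, `ω² = ω - 2`, of `ℚ(√-7)`. -/
abbrev OK : Type := QuadraticAlgebra ℤ (-2) 1

/-- The field `K = ℚ(w)`. It is `ℚ(√-7)` if `w² = w - 2`. -/
noncomputable abbrev K (w : QBar) : IntermediateField ℚ QBar := IntermediateField.adjoin ℚ {w}

/-- `w` as an element of `K`. -/
noncomputable def gen (w : QBar) : K w := ⟨w, IntermediateField.mem_adjoin_simple_self ℚ w⟩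

/-- The element `a + b ω` of `ℤ[ω]` as an element of the field `L`, `w` being the image of `ω`. -/
def emb {L : Type} [Ring L] (w : L) (z : OK) : L := z.re + z.im * w

/-- The curve `y² = x³ + 3 (1 - w) d x² + w⁴ d² x`. -/
def curve {F : Type} [Field F] (w d : F) : WeierstrassCurve F :=
  ⟨0, 3 * (1 - w) * d, 0, w ^ 4 * d ^ 2, 0⟩

/-- The curve `E_D : y² = x³ + 3 (1 - ω) D x² + ω⁴ D² x` over `K`. -/
noncomputable def ED (w : QBar) (D : OK) : WeierstrassCurve (K w) := curve (gen w) (emb (gen w) D)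

/-- The absolute Galois group of `K`. -/
abbrev Gal (w : QBar) : Type := QBar ≃ₐ[K w] QBar

/-- The subgroups of the Galois group. -/
abbrev Sub (w : QBar) : Type := Subgroup (Gal w)

/-- The characters of the Galois group with values in the units of `ℤ_2`. -/
abbrev Chr (w : QBar) : Type := Gal w →* ℤ_[2]ˣ

/-- The values of the character `χ`, in `ℤ_2`. -/
noncomputable def zv {w : QBar} (χ : Chr w) (σ : Gal w) : ℤ_[2] := ((χ σ : ℤ_[2]ˣ) : ℤ_[2])

/-- The values of the character `χ`, in `ℚ_2`. -/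
noncomputable def qv {w : QBar} (χ : Chr w) (σ : Gal w) : ℚ_[2] := ((zv χ σ : ℤ_[2]) : ℚ_[2])

/-- The group `E_D(ℚ̄)`. -/
abbrev Pts (w : QBar) (D : OK) : Type := ((ED w D).toAffine.baseChange QBar).Point

/-- The action of the Galois group on `E_D(ℚ̄)`. -/
noncomputable def act {w : QBar} {D : OK} (σ : Gal w) : Pts w D →+ Pts w D :=
  Affine.Point.map (W' := (ED w D).toAffine) (S := K w) (F := QBar) (K := QBar) σ.toAlgHom

/-- The sequences `x` and `y` are elements of the `2`-adic Tate module of the abelian group `A`, and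
they are a basis of it. -/
structure IsBasis {A : Type} [AddCommGroup A] (x y : ℕ → A) : Prop where
  zero : x 0 = 0 ∧ y 0 = 0
  double : ∀ n, x (n + 1) + x (n + 1) = x n ∧ y (n + 1) + y (n + 1) = y n
  span : ∀ (n : ℕ) (P : A), (2 ^ n : ℤ) • P = 0 → ∃ a b : ℤ, P = a • x n + b • y n
  indep : ∀ (n : ℕ) (a b : ℤ), a • x n + b • y n = 0 → (2 ^ n : ℤ) ∣ a ∧ (2 ^ n : ℤ) ∣ b

/-- The endomorphism `f` of the abelian group `A` acts on the element `x` of its `2`-adic Tate module
as the multiplication by the `2`-adic integer `z`. -/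
def ActsBy {A : Type} [AddCommGroup A] (f : A →+ A) (x : ℕ → A) (z : ℤ_[2]) : Prop :=
  ∀ (n : ℕ) (k : ℤ), (2 : ℤ_[2]) ^ n ∣ z - k → f (x n) = k • x n

/-! ### The Selmer groups -/

/-- The decomposition group of the place of `K` given by the embedding `ι` of `ℚ̄`. -/
def Dec {w : QBar} {p : ℕ} [Fact p.Prime] (ι : QBar →ₐ[ℚ] PadicAlgCl p) : Set (Gal w) :=
  {σ | ∃ τ : PadicAlgCl p ≃ₐ[ℚ_[p]] PadicAlgCl p, ∀ x, τ (ι x) = ι (σ x)}

/-- Its inertia group: the automorphisms which are trivial on the residue field. -/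
def Inr {w : QBar} {p : ℕ} [Fact p.Prime] (ι : QBar →ₐ[ℚ] PadicAlgCl p) : Set (Gal w) :=
  {σ | ∃ τ : PadicAlgCl p ≃ₐ[ℚ_[p]] PadicAlgCl p, (∀ x, τ (ι x) = ι (σ x)) ∧
    ∀ z : PadicAlgCl p, ‖z‖ ≤ 1 → ‖τ z - z‖ < 1}

/-- The restriction of the function `c` to `H` is a continuous cocycle with values in `ℚ_2(χ)`. -/
structure IsCocycle {w : QBar} (H : Sub w) (χ : Chr w) (c : Gal w → ℚ_[2]) : Prop where
  cont : ContinuousOn c H
  mul : ∀ σ ∈ H, ∀ τ ∈ H, c (σ * τ) = c σ + qv χ σ * c τ

/-- The restriction of `c` to the intersection of `S` and `H` is a coboundary. -/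
def TrivialOn {w : QBar} (H : Sub w) (χ : Chr w) (S : Set (Gal w)) (c : Gal w → ℚ_[2]) : Prop :=
  ∃ y : ℚ_[2], ∀ σ ∈ S, σ ∈ H → c σ = (qv χ σ - 1) * y

/-- The Bloch–Kato conditions over the field `L` fixed by `H`, for a character `χ` whose Hodge–Tate
weight is positive at one of the two places of `K` above `2` and not positive at the other one, which
is the one that divides `v`: the class is trivial on the inertia groups of the places of `L` prime to
`2` and on the decomposition groups of the places of `L` which divide `v`. -/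
structure IsSelmer {w : QBar} (v : QBar) (H : Sub w) (χ : Chr w) (c : Gal w → ℚ_[2]) : Prop where
  odd : ∀ (p : ℕ) [Fact p.Prime] (ι : QBar →ₐ[ℚ] PadicAlgCl p), p ≠ 2 → TrivialOn H χ (Inr ι) c
  two : ∀ ι : QBar →ₐ[ℚ] PadicAlgCl 2, ‖ι v‖ < 1 → TrivialOn H χ (Dec ι) c

/-- All the classes of the Selmer group of `ℚ_2(χ)` over the field fixed by `H` are trivial. -/
def SelmerZero {w : QBar} (v : QBar) (H : Sub w) (χ : Chr w) : Prop :=
  ∀ c : Gal w → ℚ_[2], IsCocycle H χ c → IsSelmer v H χ c → TrivialOn H χ Set.univ c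

/-- The character `κ ^ j κ' ^ (1 - j)`. -/
noncomputable def chi {w : QBar} (κ κ' : Chr w) (j : ℤ) : Chr w := κ ^ j * κ' ^ (1 - j)

/-- `κ` has order at most two on the inertia groups of the places that do not divide `v`. -/
def FiniteOff {w : QBar} (v : QBar) (κ : Chr w) : Prop :=
  ∀ (p : ℕ) [Fact p.Prime] (ι : QBar →ₐ[ℚ] PadicAlgCl p), ‖ι v‖ = 1 → ∀ σ ∈ Inr ι, zv κ σ ^ 2 = 1

/-- The character `κ` is continuous and the Galois group acts by it on the element `x` of the Tate
module. -/
def Eigen {w : QBar} {D : OK} (κ : Chr w) (x : ℕ → Pts w D) : Prop :=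
  Continuous (zv κ) ∧ ∀ σ : Gal w, ActsBy (act σ) x (zv κ σ)

/-- The Galois group acts on the `2`-adic Tate module of `E_D` through the sum of the continuous
characters `κ`, `κ'`; the first one has order at most two on the inertia groups of the places that
do not divide `ω`, and the second one on those of the places that do not divide `1 - ω`. So `κ` has
the Hodge–Tate weights `1` at `ω` and `0` at `1 - ω`, and `κ'` has the weights `0` at `ω` and `1` at
`1 - ω`. -/
def TateModule {w : QBar} (D : OK) (κ κ' : Chr w) : Prop :=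
  (∃ x y : ℕ → Pts w D, IsBasis x y ∧ Eigen κ x ∧ Eigen κ' y) ∧
    FiniteOff w κ ∧ FiniteOff (1 - w) κ'

/-! ### The class and the criterion -/

/-- The element `√-7 = 2 ω - 1`. -/
def sqrtNegSeven : OK := ⟨-1, 2⟩

/-- The element `ω`. -/
def omega : OK := ⟨0, 1⟩

/-- The class: `D` is squarefree, congruent to `5` modulo `8`, and `√-7` does not divide `D`. -/
def InClass (D : OK) : Prop := Squarefree D ∧ (8 : OK) ∣ D - 5 ∧ ¬ sqrtNegSeven ∣ D

/-- The prime divisors of `D` which are congruent to `1` modulo `ω²`. -/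
def primes (D : OK) : Set OK := {p | Prime p ∧ p ∣ D ∧ omega ^ 2 ∣ p - 1}

/-- The symbol `[x / p]`: `0` if `x` is a square modulo `p`, otherwise `1`. -/
noncomputable def sym (x p : OK) : ZMod 2 := if ∃ y : OK, p ∣ x - y ^ 2 then 0 else 1

/-- The sum of the `[p / q] (x_p + x_q)` over the prime divisors `q`. -/
noncomputable def lap (D : OK) (x : OK → ZMod 2) (p : OK) : ZMod 2 :=
  ∑ᶠ q ∈ primes D, sym p q * (x p + x q)

/-- The sum of the `[a / q] x_q` over the prime divisors `q`. -/
noncomputable def dot (D a : OK) (x : OK → ZMod 2) : ZMod 2 := ∑ᶠ q ∈ primes D, sym a q * x q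

/-- `x` is constant on the prime divisors. -/
def Const (D : OK) (x : OK → ZMod 2) : Prop := ∃ c : ZMod 2, ∀ p ∈ primes D, x p = c

/-- `D` is in the class and the two systems have only the constant solutions. -/
structure Good (D : OK) : Prop where
  cls : InClass D
  one : ∀ x : OK → ZMod 2,
    (∀ p ∈ primes D, lap D x p + sym (-omega) p * dot D (-1) x = 0) → Const D x
  two : ∀ x : OK → ZMod 2,
    (∀ p ∈ primes D, lap D x p + sym (-1) p * (x p + dot D (-(1 - omega)) x) = 0) → Const D x

/-- The norm of `a + b ω`. -/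
def nrmOK (D : OK) : ℤ := D.re ^ 2 + D.re * D.im + 2 * D.im ^ 2

/-- The number of the `D` of the class with norm at most `X` and with the property `P`. -/
noncomputable def count (P : OK → Prop) (X : ℕ) : ℕ :=
  {D : OK | nrmOK D ≤ X ∧ InClass D ∧ P D}.ncard

/-- The property `P` has the natural density `y` in the class. -/
def HasDensity (P : OK → Prop) (y : ℝ) : Prop :=
  Tendsto (fun X : ℕ => (count P X : ℝ) / (count (fun _ => True) X : ℝ)) atTop (nhds y)

/-- The product `(1 - 1/2) (1 - 1/4) (1 - 1/8) ⋯`. -/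
noncomputable def c2 : ℝ := ∏' i : ℕ, (1 - (1 / 2 : ℝ) ^ (i + 1))

/-! ### The fields -/

/-- The Galois group of `ℚ̄` over the field `L = K(s_1, …, s_n)`. -/
noncomputable def GalL (w : QBar) {n : ℕ} (s : Fin n → QBar) : Sub w :=
  (IntermediateField.adjoin (K w) (Set.range s)).fixingSubgroup

/-- The good pairs: all the elements `M ∏_{i ∈ T} d_i` are, up to nonzero squares, good. -/
def GoodPair (M : OK) {n : ℕ} (d : Fin n → OK) : Prop :=
  ∀ T : Finset (Fin n), ∃ D z : OK, z ≠ 0 ∧ Good D ∧ M * ∏ i ∈ T, d i = D * z ^ 2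

/-- The curve `E_M` is elliptic, the Galois group acts on its `2`-adic Tate module by `κ`, `κ'`, and
for all integers `j` all the classes of the Bloch–Kato Selmer groups over `L = K(√d_1, …, √d_n)` of
`V_j = ℚ_2(κ ^ j κ' ^ (1 - j))` are trivial. The Hodge–Tate weight of `V_j` is `j` at `ω` and `1 - j`
at `1 - ω`; it is not positive at `1 - ω` if `j > 0`, and at `ω` if `j ≤ 0`. -/
def AllWeights (w : QBar) (M : OK) {n : ℕ} (d : Fin n → OK) : Prop :=
  (ED w M).IsElliptic ∧ ∃ κ κ' : Chr w, TateModule M κ κ' ∧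
    ∀ s : Fin n → QBar, (∀ i, s i ^ 2 = emb w (d i)) → ∀ j : ℤ,
      (0 < j → SelmerZero (1 - w) (GalL w s) (chi κ κ' j)) ∧
      (j ≤ 0 → SelmerZero w (GalL w s) (chi κ κ' j))

/-! ### The proof -/

section proof

open Pool.Agent.Y676.IS (Cu some_congr)
open Pool.Agent.R384 (WD ca cb em)

variable {w : QBar} (hw : w ^ 2 = w - 2) {D : OK}

lemma gen_sq : gen w ^ 2 = gen w - 2 ↔ w ^ 2 = w - 2 := by
  rw [Subtype.ext_iff]
  rfl

lemma emb_eq (z : OK) : ((emb (gen w) z : K w) : QBar) = em hw z := by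
  unfold emb
  rw [Pool.Agent.R384.em_apply]
  push_cast
  rfl

lemma curve_eq : (ED w D).toAffine.baseChange QBar = Cu (ca w (em hw D)) (cb w (em hw D)) := by
  have h1 : algebraMap (K w) QBar (gen w) = w := rfl
  have h2 : algebraMap (K w) QBar (emb (gen w) D) = em hw D := emb_eq hw D
  unfold ED curve Cu ca cb WeierstrassCurve.Affine.baseChange WeierstrassCurve.toAffine
  ext
  · exact map_zero _
  · show algebraMap (K w) QBar (3 * (1 - gen w) * emb (gen w) D) = _
    rw [map_mul, map_mul, map_sub, map_one, map_ofNat, h1, h2]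
  · exact map_zero _
  · show algebraMap (K w) QBar (gen w ^ 4 * emb (gen w) D ^ 2) = _
    rw [map_mul, map_pow, map_pow, h1, h2]
  · exact map_zero _

/-- the points of equal curves -/
noncomputable def tr {W W' : Affine QBar} (h : W = W') : W.Point ≃+ W'.Point := by
  subst h
  exact AddEquiv.refl _

lemma tr_some {W W' : Affine QBar} (h : W = W') {a b : QBar} (hab : W.Nonsingular a b) :
    tr h (.some a b hab) = .some a b (h ▸ hab) := by
  subst h
  rfl

lemma tr_act (h : WD w (em hw D)) (fx : ∀ σ : Gal w, Pool.Agent.R384.Fx w (em hw D)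
    (Pool.Agent.R384.rh σ)) (σ : Gal w) (P : Pts w D) :
    tr (curve_eq hw) (act σ P) = Pool.Agent.R384.act h fx σ (tr (curve_eq hw) P) := by
  rcases P with _ | ⟨a, b, hab⟩
  · show tr (curve_eq hw) (act σ 0) = Pool.Agent.R384.act h fx σ (tr (curve_eq hw) 0)
    simp only [map_zero]
  · rw [tr_some (curve_eq hw) hab]
    exact tr_some (curve_eq hw) (a := σ.toAlgHom a) (b := σ.toAlgHom b)
      ((Affine.baseChange_nonsingular (ED w D).toAffine σ.toAlgHom.injective ..).mpr hab)

lemma elliptic (hD : D ≠ 0) (hw : w ^ 2 = w - 2) : (ED w D).IsElliptic := by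
  have hg := gen_sq.2 hw
  have hg0 : gen w ≠ 0 := by
    intro h
    rw [h] at hg
    norm_num at hg
  have hg1 : 1 - gen w ≠ 0 := by
    intro h
    have h1 : gen w = 1 := (sub_eq_zero.1 h).symm
    rw [h1] at hg
    norm_num at hg
  have hd : (emb (gen w) D : K w) ≠ 0 := by
    intro h
    have h1 := emb_eq hw D
    rw [h] at h1
    exact hD (Pool.Agent.R384.em_inj hw h1.symm)
  rw [WeierstrassCurve.isElliptic_iff, isUnit_iff_ne_zero]
  have e : (ED w D).Δ = 16 * (gen w ^ 4 * emb (gen w) D ^ 2) ^ 2 *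
      ((1 - gen w) ^ 8 * emb (gen w) D ^ 2) := by
    simp only [ED, curve, WeierstrassCurve.Δ, WeierstrassCurve.b₂, WeierstrassCurve.b₄,
      WeierstrassCurve.b₆, WeierstrassCurve.b₈]
    generalize emb (gen w) D = d at *
    generalize gen w = g at *
    have h2 : (1 - g) ^ 2 = -1 - g := by linear_combination hg
    have h4 : (1 - g) ^ 4 = 3 * g - 1 := by
      have : (1 - g) ^ 4 = ((1 - g) ^ 2) ^ 2 := by ring
      rw [this, h2]
      linear_combination hg
    have h8 : (1 - g) ^ 8 = 3 * g - 17 := by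
      have : (1 - g) ^ 8 = ((1 - g) ^ 4) ^ 2 := by ring
      rw [this, h4]
      linear_combination 9 * hg
    have g4 : g ^ 4 = 2 - 3 * g := by linear_combination (g ^ 2 + g - 1) * hg
    rw [h8]
    have e1 : 9 * (1 - g) ^ 2 - 4 * g ^ 4 = 3 * g - 17 := by
      rw [h2, g4]; ring
    rw [← e1]
    ring
  rw [e]
  exact mul_ne_zero (mul_ne_zero (by norm_num) (pow_ne_zero _ (mul_ne_zero (pow_ne_zero _ hg0)
    (pow_ne_zero _ hd)))) (mul_ne_zero (pow_ne_zero _ hg1) (pow_ne_zero _ hd))

end proof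

/-! ### The criterion in the two models -/

section crit

open Pool.Agent.R426 Pool.Agent.R426.QK
open Pool.Agent.N848.AW (Cls5 Good5 G2 GA GB Lp dt Cst cA gg hh)
open Pool.Agent.N848.W (th th_om th_s7 e_dvd e_prime e_sqf)
open Pool.Agent.Y698 (RR cX cY aR cj fR)
open Pool.Agent.Y698.SG (sy lg)
open Pool.Agent.W192.HK Pool.Agent.TH936.CM Pool.Agent.TH936.PU H667R3

lemma sqrt_eq : sqrtNegSeven = Pool.Agent.R384.s7 := rfl

lemma cls_th {D : OK} : Cls5 (th D) ↔ InClass D := by
  rw [Pool.Agent.N848.AW.cls5_th]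
  rfl

lemma mem_primes {D p : OK} (hD : InClass D) : p ∈ primes D ↔ th p ∈ QK.PD (th D) := by
  have h1 := Pool.Agent.N763.AW.prm_of (cls_th.2 hD)
  have hD0 : th D ≠ 0 := by
    rw [map_ne_zero_iff th th.injective]
    exact hD.1.ne_zero
  rw [mem_PD hD0]
  have h2 : omega ^ 2 ∣ p - 1 ↔ QD.r4 (th p) = 1 := by
    rw [QD.r4_dvd, ← e_dvd th, map_pow, map_sub, map_one]
    show th Pool.Agent.R384.om ^ 2 ∣ _ ↔ _
    rw [th_om]
  unfold primes
  rw [Set.mem_ofPred_eq, h2, ← e_prime th, ← e_dvd th]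
  constructor
  · rintro ⟨h3, h4, h5⟩
    exact ⟨pq_of h1 h3 h4 h5, h4⟩
  · rintro ⟨h3, h4⟩
    exact ⟨h3.prime, h4, h3.prm.r4⟩

lemma primes_eq {D : OK} (hD : InClass D) :
    primes D = (((QK.PD (th D)).map th.symm.toEquiv.toEmbedding : Finset OK) : Set OK) := by
  ext p
  rw [mem_primes hD, Finset.mem_coe, Finset.mem_map_equiv]
  rfl

lemma sym_th {p : OK} (x : OK) (hp : Pq (th p)) (hx : ¬ p ∣ x) : sym x p = cs (th p) (th x) := by
  unfold sym
  by_cases h : ∃ y : OK, p ∣ x - y ^ 2
  · rw [if_pos h]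
    obtain ⟨y, hy⟩ := h
    refine (Pool.Agent.N848.AW.cs_sq (fun h1 => hx ((e_dvd th).1 h1)) ⟨th y, ?_⟩).symm
    rw [← map_pow, ← map_sub, e_dvd]
    exact hy
  · rw [if_neg h]
    unfold cs
    have h1 : ¬ IsSquare (Ideal.Quotient.mk (sp (th p)) (th x)) := by
      rintro ⟨z, hz⟩
      obtain ⟨y, rfl⟩ := Ideal.Quotient.mk_surjective z
      apply h
      refine ⟨th.symm y, ?_⟩
      rw [← map_mul, Ideal.Quotient.eq] at hz
      rw [← e_dvd th, map_sub, map_pow, th.apply_symm_apply, pow_two]
      exact mem_sp.1 hz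
    have h2 : th x ∉ sp (th p) := fun h3 => hx ((e_dvd th).1 (mem_sp.1 h3))
    have h3 : sy (th p) (th x) = -1 := by
      unfold sy
      rw [if_neg h2, if_neg h1]
    rw [h3, Pool.Agent.Y698.SG.lg_neg_one]

lemma sum_primes {D : OK} (hD : InClass D) (f : OK → ZMod 2) :
    ∑ᶠ q ∈ primes D, f q = ∑ π ∈ QK.PD (th D), f (th.symm π) := by
  rw [primes_eq hD, finsum_mem_coe_finset, Finset.sum_map]
  rfl

lemma unit_not {π : RR} (h : Pq π) {u : RR} (hu : IsUnit u) : ¬ π ∣ u := fun h1 =>
  h.prime.not_isUnit (isUnit_of_dvd_unit h1 hu)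

variable {D : OK} (hsup : Pool.Agent.N848.AW.S_SUP) (hD : InClass D)

include hD

lemma lap_th (x : OK → ZMod 2) {p : OK} (hp : p ∈ primes D) :
    lap D x p = Lp (QK.PD (th D)) cA (fun π => x (th.symm π)) (th p) := by
  have hp' := (mem_primes hD).1 hp
  have hD0 : th D ≠ 0 := by
    rw [map_ne_zero_iff th th.injective]
    exact hD.1.ne_zero
  unfold lap Lp
  rw [sum_primes hD]
  refine Finset.sum_congr rfl fun π hπ => ?_
  show sym p (th.symm π) * (x p + x (th.symm π)) =
    cs π (th p) * (x (th.symm (th p)) + x (th.symm π))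
  rw [th.symm_apply_apply]
  by_cases h : th.symm π = p
  · rw [h, Pool.Agent.N848.AW.dbl, mul_zero, mul_zero]
  · have hP := ((mem_PD hD0).1 hπ).1
    have h1 : Pq (th (th.symm π)) := by rw [th.apply_symm_apply]; exact hP
    rw [sym_th p h1 ?_, th.apply_symm_apply]
    intro h2
    have h3 : π ∣ th p := by
      rw [← e_dvd th, th.apply_symm_apply] at h2
      exact h2
    have h4 := eq_of_dvd hP ((mem_PD hD0).1 hp').1 h3
    exact h (by rw [h4, th.symm_apply_apply])

include hsup

lemma sym_t {π : RR} (h : π ∈ QK.PD (th D)) : sym (-1) (th.symm π) = tt π := by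
  have hD0 : th D ≠ 0 := by
    rw [map_ne_zero_iff th th.injective]
    exact hD.1.ne_zero
  have hP := ((mem_PD hD0).1 h).1
  have h1 : Pq (th (th.symm π)) := by rw [th.apply_symm_apply]; exact hP
  rw [sym_th _ h1, th.apply_symm_apply, map_neg, map_one]
  · exact (hsup π hP).1
  · rw [← e_dvd th, th.apply_symm_apply, map_neg, map_one, dvd_neg]
    exact unit_not hP isUnit_one

lemma sym_g {π : RR} (h : π ∈ QK.PD (th D)) : sym (-omega) (th.symm π) = gg π := by
  have hD0 : th D ≠ 0 := by
    rw [map_ne_zero_iff th th.injective]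
    exact hD.1.ne_zero
  have hP := ((mem_PD hD0).1 h).1
  have h1 : Pq (th (th.symm π)) := by rw [th.apply_symm_apply]; exact hP
  have e : th (-omega) = -aR := by
    rw [map_neg]
    show -th Pool.Agent.R384.om = _
    rw [th_om]
  rw [sym_th _ h1, th.apply_symm_apply, e]
  · exact (hsup π hP).2.1
  · rw [← e_dvd th, th.apply_symm_apply, e, dvd_neg]
    exact fun h2 => hP.od (by rw [two_eq]; exact h2.mul_right _)

lemma sym_h {π : RR} (h : π ∈ QK.PD (th D)) : sym (-(1 - omega)) (th.symm π) = hh π := by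
  have hD0 : th D ≠ 0 := by
    rw [map_ne_zero_iff th th.injective]
    exact hD.1.ne_zero
  have hP := ((mem_PD hD0).1 h).1
  have h1 : Pq (th (th.symm π)) := by rw [th.apply_symm_apply]; exact hP
  have e : th (-(1 - omega)) = -cj aR := by
    rw [map_neg]
    show -th (1 - Pool.Agent.R384.om) = _
    rw [Pool.Agent.N848.AW.th_om']
  rw [sym_th _ h1, th.apply_symm_apply, e]
  · exact (hsup π hP).2.2
  · rw [← e_dvd th, th.apply_symm_apply, e, dvd_neg]
    exact fun h2 => hP.od (by rw [two_eq]; exact h2.mul_left _)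

/-- the criterion in the two models -/
theorem good_iff : Good D ↔ G2 (QK.PD (th D)) := by
  have hc : ∀ x : OK → ZMod 2, Const D x ↔ Cst (QK.PD (th D)) (fun π => x (th.symm π)) := by
    intro x
    constructor
    · rintro ⟨c, h⟩
      refine ⟨c, fun π hπ => h _ ?_⟩
      rw [mem_primes hD, th.apply_symm_apply]
      exact hπ
    · rintro ⟨c, h⟩
      refine ⟨c, fun p hp => ?_⟩
      have h1 := h (th p) ((mem_primes hD).1 hp)
      simp only [th.symm_apply_apply] at h1
      exact h1
  have hdt : ∀ x : OK → ZMod 2, dot D (-1) x = dt (QK.PD (th D)) tt (fun π => x (th.symm π)) := by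
    intro x
    unfold dot dt
    rw [sum_primes hD]
    exact Finset.sum_congr rfl fun π hπ => congrArg (· * x (th.symm π)) (sym_t hsup hD hπ)
  have hdh : ∀ x : OK → ZMod 2,
      dot D (-(1 - omega)) x = dt (QK.PD (th D)) hh (fun π => x (th.symm π)) := by
    intro x
    unfold dot dt
    rw [sum_primes hD]
    exact Finset.sum_congr rfl fun π hπ => congrArg (· * x (th.symm π)) (sym_h hsup hD hπ)
  have ht : ∀ p ∈ primes D, sym (-1) p = tt (th p) := by
    intro p hp
    have := sym_t hsup hD ((mem_primes hD).1 hp)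
    rwa [th.symm_apply_apply] at this
  have hg : ∀ p ∈ primes D, sym (-omega) p = gg (th p) := by
    intro p hp
    have := sym_g hsup hD ((mem_primes hD).1 hp)
    rwa [th.symm_apply_apply] at this
  have ex : ∀ y : RR → ZMod 2, (fun π => (fun p : OK => y (th p)) (th.symm π)) = y := by
    intro y
    funext π
    show y (th (th.symm π)) = y π
    rw [th.apply_symm_apply]
  constructor
  · intro h
    constructor
    · intro y hy
      have h1 := h.one (fun p => y (th p)) ?_
      · rw [hc, ex] at h1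
        exact h1
      · intro p hp
        rw [lap_th hD _ hp, hdt, ex, hg p hp]
        exact hy (th p) ((mem_primes hD).1 hp)
    · intro y hy
      have h1 := h.two (fun p => y (th p)) ?_
      · rw [hc, ex] at h1
        exact h1
      · intro p hp
        rw [lap_th hD _ hp, hdh, ex, ht p hp, mul_add, ← add_assoc]
        exact hy (th p) ((mem_primes hD).1 hp)
  · rintro ⟨hA, hB⟩
    refine ⟨hD, ?_, ?_⟩
    · intro x hx
      rw [hc]
      refine hA _ fun π hπ => ?_
      have hp : th.symm π ∈ primes D := by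
        rw [mem_primes hD, th.apply_symm_apply]
        exact hπ
      have h1 := hx _ hp
      rw [lap_th hD _ hp, hdt, hg _ hp, th.apply_symm_apply] at h1
      exact h1
    · intro x hx
      rw [hc]
      refine hB _ fun π hπ => ?_
      have hp : th.symm π ∈ primes D := by
        rw [mem_primes hD, th.apply_symm_apply]
        exact hπ
      have h1 := hx _ hp
      rw [lap_th hD _ hp, hdh, ht _ hp, th.apply_symm_apply, mul_add, ← add_assoc] at h1
      exact h1

omit hsup hD in
lemma norm_th (D : OK) : (nrm (th D) : ℤ) = nrmOK D := by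
  have h1 : cX (th D) = D.re := by
    have := Pool.Agent.N848.W.th_symm (th D)
    rw [th.symm_apply_apply] at this
    exact (congrArg QuadraticAlgebra.re this).symm
  have h2 : cY (th D) = D.im := by
    have := Pool.Agent.N848.W.th_symm (th D)
    rw [th.symm_apply_apply] at this
    exact (congrArg QuadraticAlgebra.im this).symm
  rw [nrm_eq', h1, h2]
  rfl

omit hsup hD in
lemma count_th (P : OK → Prop) (Q : RR → Prop) (h : ∀ D : OK, InClass D → (P D ↔ Q (th D)))
    (X : ℕ) : count P X = {D : RR | nrm D ≤ X ∧ Cls5 D ∧ Q D}.ncard := by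
  unfold count
  rw [← Set.ncard_image_of_injective _ th.injective]
  congr 1
  ext D
  simp only [Set.mem_ofPred_eq, Set.mem_image]
  constructor
  · rintro ⟨E, ⟨h1, h2, h3⟩, rfl⟩
    refine ⟨?_, cls_th.2 h2, (h E h2).1 h3⟩
    rw [← norm_th] at h1
    exact_mod_cast h1
  · rintro ⟨h1, h2, h3⟩
    have h4 : InClass (th.symm D) := by
      rw [← cls_th, th.apply_symm_apply]
      exact h2
    refine ⟨th.symm D, ⟨?_, h4, ?_⟩, th.apply_symm_apply D⟩
    · rw [← norm_th, th.apply_symm_apply]
      exact_mod_cast h1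
    · rw [h _ h4, th.apply_symm_apply]
      exact h3

end crit

/-- the conditions on a good element -/
lemma gdW_of {D : OK} (hg : Good D) : Pool.Agent.N848.AW.G.GdW D := by
  have hG5 : Pool.Agent.N848.AW.Good5 (Pool.Agent.N848.W.th D) :=
    ⟨cls_th.2 hg.cls, (good_iff Pool.Agent.N848.AW.t_SUP hg.cls).1 hg⟩
  exact ⟨hg.cls.1, hg.cls.2.1, hg.cls.2.2, fun ϖ ϖ' hϖ => Pool.Agent.N848.AW.algS
    Pool.Agent.R426.QK.recP Pool.Agent.N848.AW.t_SUP Pool.Agent.N763.AW.t_CLS
    Pool.Agent.N848.AW.t_TR hG5 hϖ⟩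

section fields

variable {w : QBar} (hw : w ^ 2 = w - 2)

lemma galL_eq {n : ℕ} (s : Fin n → QBar) : GalL w s = Pool.Agent.R384.fixs s Finset.univ := by
  ext σ
  unfold GalL
  rw [IntermediateField.mem_fixingSubgroup_iff]
  constructor
  · intro h i _
    exact h (s i) (IntermediateField.subset_adjoin _ _ ⟨i, rfl⟩)
  · intro h x hx
    have h1 : IntermediateField.adjoin (K w) (Set.range s) ≤
        IntermediateField.fixedField (Pool.Agent.R384.fixs s Finset.univ) := by
      rw [IntermediateField.adjoin_le_iff]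
      rintro _ ⟨i, rfl⟩
      rw [SetLike.mem_coe, IntermediateField.mem_fixedField_iff]
      intro f hf
      exact hf i (Finset.mem_univ i)
    exact (IntermediateField.mem_fixedField_iff _ x).1 (h1 hx) σ h

/-- the transfer -/
lemma selmer_of {v : Pool.Agent.R384.OO} {χ : Chr w} {H : Sub w}
    (h : Pool.Agent.R384.VanOn hw v χ H) {v' : QBar} (hv : Pool.Agent.R384.em hw v = v') :
    SelmerZero v' H χ := by
  intro c hc hs
  obtain ⟨y, hy⟩ := h c ⟨hc.cont, hc.mul⟩ (fun p _ ι hp => hs.odd p ι hp) (fun ι hι => by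
    rw [hv] at hι
    exact hs.two ι hι)
  exact ⟨y, fun σ _ h => hy σ h⟩

/-- the vanishing -/
lemma all_of (hw : w ^ 2 = w - 2) {M : OK} {n : ℕ} {d : Fin n → OK}
    (hG : GoodPair M d) :
    AllWeights w M d := by
  have hM0 : M ≠ 0 := by
    obtain ⟨D, k, hk, hD, he⟩ := hG ∅
    rw [Finset.prod_empty, mul_one] at he
    rw [he]
    exact mul_ne_zero hD.cls.1.ne_zero (pow_ne_zero 2 hk)
  have hd0 : ∀ i, d i ≠ 0 := by
    intro i
    obtain ⟨D, k, hk, hD, he⟩ := hG {i}
    rw [Finset.prod_singleton] at he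
    exact right_ne_zero_of_mul (he ▸ mul_ne_zero hD.cls.1.ne_zero (pow_ne_zero 2 hk))
  have hD := hM0
  refine ⟨elliptic hD hw, ?_⟩
  have h : Pool.Agent.R384.WD w (Pool.Agent.R384.em hw (M)) := ⟨hw, Pool.Agent.R384.em_ne hw hD⟩
  obtain ⟨r, hr⟩ : ∃ r : QBar, r ^ 2 = Pool.Agent.R384.em hw (M) :=
    IsAlgClosed.exists_pow_nat_eq _ (by norm_num)
  obtain ⟨I, hI⟩ : ∃ I : QBar, I ^ 2 = -1 := IsAlgClosed.exists_pow_nat_eq _ (by norm_num)
  have fx : ∀ σ : Gal w, Pool.Agent.R384.Fx w (Pool.Agent.R384.em hw (M))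
      (Pool.Agent.R384.rh σ) := fun σ =>
    ⟨Pool.Agent.Y715.Gi.gk_fix σ, Pool.Agent.R384.gk_em hw σ (M)⟩
  obtain ⟨κ, κ', x, y, kd, hx, hy, ax, ay⟩ := Pool.Agent.R384.exists_kd hw hD h hr hI fx
  have td := Pool.Agent.R384.td h
  set T := tr (curve_eq hw (D := M)) with hT
  have hor : ∀ {p : ℕ} [Fact p.Prime] (ι : QBar →ₐ[ℚ] PadicAlgCl p) (s : QBar) (z : OK),
      s ^ 2 = Pool.Agent.R384.em hw z → ∀ σ : Gal w, σ s = s ∨ σ s = -s := fun ι s z hs σ =>
    Pool.Agent.R384.rt_or hw hs σ
  have hIr : (I * r) ^ 2 = Pool.Agent.R384.em hw (-M) := by rw [mul_pow, hI, hr, map_neg]; ring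
  refine ⟨κ, κ', ⟨⟨fun n => T.symm (y n), fun n => T.symm (x n), ⟨?_, ?_, ?_, ?_⟩,
    ⟨Units.continuous_val.comp kd.cont, fun σ => ?_⟩,
    ⟨Units.continuous_val.comp kd.cont', fun σ => ?_⟩⟩, ?_, ?_⟩, ?_⟩
  · show T.symm (y 0) = 0 ∧ T.symm (x 0) = 0
    rw [hx.zero, hy.zero, map_zero]
    exact ⟨rfl, rfl⟩
  · intro n
    show T.symm (y (n + 1)) + T.symm (y (n + 1)) = T.symm (y n) ∧
      T.symm (x (n + 1)) + T.symm (x (n + 1)) = T.symm (x n)
    rw [← map_add, ← map_add, hx.dbl, hy.dbl]
    exact ⟨rfl, rfl⟩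
  · intro n P hP
    have h1 : (2 ^ n : ℤ) • T P = 0 := by rw [← map_zsmul, hP, map_zero]
    obtain ⟨a, b, hab⟩ := Pool.Agent.R384.Tow.basis td hx hy h1
    refine ⟨b, a, ?_⟩
    apply T.injective
    show T P = T (b • T.symm (y n) + a • T.symm (x n))
    rw [map_add, map_zsmul, map_zsmul, T.apply_symm_apply, T.apply_symm_apply, hab, add_comm]
  · intro n a b hab
    have h1 : T (a • T.symm (y n) + b • T.symm (x n)) = 0 := by
      show T ((fun n => a • T.symm (y n) + b • T.symm (x n)) n) = 0
      rw [show (fun n => a • T.symm (y n) + b • T.symm (x n)) n = 0 from hab, map_zero]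
    rw [map_add, map_zsmul, map_zsmul, T.apply_symm_apply, T.apply_symm_apply, add_comm] at h1
    exact (Pool.Agent.R384.Tow.uniq td hx hy h1).symm
  · intro n k hk
    show act σ (T.symm (y n)) = k • T.symm (y n)
    apply T.injective
    rw [hT, tr_act hw h fx σ, ← hT, T.apply_symm_apply, map_zsmul, T.apply_symm_apply]
    exact ay σ n k hk
  · intro n k hk
    show act σ (T.symm (x n)) = k • T.symm (x n)
    apply T.injective
    rw [hT, tr_act hw h fx σ, ← hT, T.apply_symm_apply, map_zsmul, T.apply_symm_apply]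
    exact ax σ n k hk
  · rintro p _ ι hn σ ⟨τ, hτ, hin⟩
    have h1 := kd.inert p ι τ σ hτ hin hn
    unfold zv
    rcases hor ι _ _ hIr σ with h2 | h2
    · rw [h1.1 h2, Units.val_one, one_pow]
    · rw [h1.2 h2, Units.val_neg, Units.val_one, neg_one_sq]
  · rintro p _ ι hn σ ⟨τ, hτ, hin⟩
    have h1 := kd.inert' p ι τ σ hτ hin hn
    unfold zv
    rcases hor ι _ _ hr σ with h2 | h2
    · rw [h1.1 h2, Units.val_one, one_pow]
    · rw [h1.2 h2, Units.val_neg, Units.val_one, neg_one_sq]
  · intro s hs j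
    have hom : Pool.Agent.R384.em hw Pool.Agent.R384.om = w := by
      rw [Pool.Agent.R384.em_apply]
      simp [Pool.Agent.R384.om]
    have hom' : Pool.Agent.R384.em hw (1 - Pool.Agent.R384.om) = 1 - w := by
      rw [map_sub, map_one, hom]
    have hE : ∀ i, s i ^ 2 = Pool.Agent.R384.em hw (d i) := by
      intro i
      rw [hs i]
      unfold emb
      rw [Pool.Agent.R384.em_apply]
    have hgood : ∀ T : Finset (Fin n), ∃ P z : OK, Pool.Agent.N848.AW.G.GdW P ∧ z ≠ 0 ∧
        M * ∏ i ∈ T, d i = P * z ^ 2 := by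
      intro T
      obtain ⟨D, z, hz, hgd, he⟩ := hG T
      exact ⟨D, z, gdW_of hgd, hz, he⟩
    have hj : Odd (j + (1 - j)) := ⟨0, by ring⟩
    rw [galL_eq]
    exact ⟨fun _ => selmer_of hw (Pool.Agent.N848.AW.G.vanMqW hw hE kd hD hd0 hgood j (1 - j) hj
        (Or.inr ⟨rfl, rfl⟩)) hom',
      fun _ => selmer_of hw (Pool.Agent.N848.AW.G.vanMqW hw hE kd hD hd0 hgood j (1 - j) hj
        (Or.inl ⟨rfl, rfl⟩)) hom⟩

end fields

lemma c2_eq : c2 = Pool.Agent.R426.QK.c2 := rfl

/-- **The Bloch–Kato Selmer groups of all weights over multiquadratic extensions.** -/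
theorem result :
    (∀ w : QBar, w ^ 2 = w - 2 →
      (∀ (M : OK) (n : ℕ) (d : Fin n → OK), GoodPair M d → AllWeights w M d) ∧
      (∀ M : OK, Good M → AllWeights w M (n := 0) Fin.elim0) ∧
      ∀ M D : OK, Good M → Good D → AllWeights w M (n := 1) fun _ => M * D) ∧
    HasDensity Good (c2 / 2) ∧ 0.144 < c2 / 2 ∧ c2 / 2 < 0.1445 ∧
    ∃ c : ℝ, 0 < c ∧ ∀ᶠ X : ℕ in atTop, c * X ≤ count (fun _ => True) X := by
  refine ⟨fun w hw => ⟨fun M n d hG => all_of hw hG, fun M hM => all_of hw fun T => ?_,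
    fun M D hM hD => all_of hw fun T => ?_⟩, ?_, ?_, ?_, ?_⟩
  · refine ⟨M, 1, one_ne_zero, hM, ?_⟩
    rw [Finset.eq_empty_of_isEmpty T, Finset.prod_empty]
    ring
  · rcases T.eq_empty_or_nonempty with h | ⟨i, hi⟩
    · refine ⟨M, 1, one_ne_zero, hM, ?_⟩
      rw [h, Finset.prod_empty]
      ring
    · refine ⟨D, M, hM.cls.1.ne_zero, hD, ?_⟩
      have h1 : T = {0} := by
        ext j
        rw [Subsingleton.elim j i, Finset.mem_singleton]
        exact ⟨fun _ => Subsingleton.elim _ _, fun _ => hi⟩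
      rw [h1, Finset.prod_singleton]
      ring
  · have h := Pool.Agent.N848.AW.t_DEN5
    unfold Pool.Agent.N848.AW.S_DEN5 at h
    unfold HasDensity
    refine h.congr fun X => ?_
    have hgood : ∀ D : OK, InClass D → (Good D ↔ Pool.Agent.N848.AW.G2
        (Pool.Agent.R426.QK.PD (Pool.Agent.N848.W.th D))) := fun D hD =>
      good_iff Pool.Agent.N848.AW.t_SUP hD
    rw [count_th Good (fun D => Pool.Agent.N848.AW.G2 (Pool.Agent.R426.QK.PD D)) hgood,
      count_th (fun _ => True) (fun _ => True) (fun _ _ => Iff.rfl)]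
    congr 2
    congr 1
    ext D
    simp only [Set.mem_ofPred_eq, and_true]
  · have := Pool.Agent.R426.QK.MOM.t_C2.2.2.2.1
    rw [c2_eq]
    linarith
  · have := Pool.Agent.R426.QK.MOM.t_C2.2.2.2.2
    rw [c2_eq]
    linarith
  · obtain ⟨c, X₀, hc, h⟩ := Pool.Agent.N34.AW.LOW.t_LOW5
    refine ⟨c, hc, ?_⟩
    filter_upwards [eventually_ge_atTop X₀] with X hX
    have h1 := h X hX
    have h2 := Pool.Agent.N763.AW.card_eq Pool.Agent.N763.AW.t_CLS X (fun _ => True)
    rw [Finset.filter_true] at h2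
    rw [count_th (fun _ => True) (fun _ => True) (fun _ _ => Iff.rfl), h2]
    exact h1

end Pool.Agent.Results.MP_009fd8_ag.AllWeightsNaturalDensity
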