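import Mathlib
import Pool.Agent.N883.DQ.Bk

/-!
# The conjecture of Bloch and Kato on the Abel–Jacobi map for diagonal cubic threefolds and fivefolds,
# `p = 3`, over `ℚ` and over infinite towers of number fields

Let `a = (a_0, …, a_{n+1})` be nonzero integers, `n = 3` or `n = 5`, and let `X_a` be the smooth cubic
hypersurface `a_0 x_0³ + … + a_{n+1} x_{n+1}³ = 0` of dimension `n`.  Let `M` be any finite set of primes
`≡ 1` modulo `9`.  `D` runs through the squarefree numbers, prime to `3` and to `M`, not `±1` modulo `9`,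
that are divisible by exactly one prime `2` modulo `3`.  A form `a` belongs to `(M, D)` if one of the
`a_i` is `± D` or `± D²` and all the others are, up to the sign, products of powers of elements of `M`.

Put `c = (n - 1) / 2`.  For a set `T` of `c` indices let `δ_T = ∏ a_i ∏_{i ∈ T} a_i`, and let `E_δ` be the
curve `y² + δ y = x³`.

* For a set of `D` whose proportion tends exactly to `c₃ ^ {3 ^ #M}`, `c₃ = ∏_{i ≥ 1} (1 - 3^{-i}) > 0.56`,
  the following holds for *all* the forms `a` that belong to `(M, D)` and for *all* the fields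
  `K = ℚ(∛l : l ∈ S)`, `S ⊆ M` (`K = ℚ` for `S = ∅`), for `n = 3` and for `n = 5`: for all the curves
  `E = E_{δ_T}` the groups `E(K) ⊗ ℚ_3` and `H¹_f(K, V_3 E)` are zero.
* At all the places `v` of `K` not dividing `3 D ∏_{l ∈ M} l` the trace of the Frobenius (and of its
  powers) on `H^n(X_a)` is the sum over all the `T` of `N(v)^c` times the trace on `H^1(E_{δ_T})`
  (`Decomposition`).
* For each of these `D` there are infinitely many primes `l` such that the same holds for `M ∪ {l}`.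
  So for each of these `D` there are infinite towers of such fields `K`.

By the second point and by Faltings, `V = H^n(X_a, ℚ_3(c + 1))` is the direct sum of the `V_3 E_{δ_T}`
and the intermediate Jacobian `J` of `X_a` is isogenous to the product of the `E_{δ_T}`; and
`CH^{c+1}(X_a)_0 ⊗ ℚ_3 = J(K) ⊗ ℚ_3` (Bloch–Murre for the threefolds, Collino and Paranjape for the
fivefolds); this is not formalized.  So `CH^{c+1}(X_a)_0 ⊗ ℚ_3 = 0 = H¹_f(K, V)`: the Abel–Jacobi map is
an isomorphism for `X = X_a`, `e = 1`, `p = 3`, `i = 1` and `i = 2` over these `K`.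

`H1f 3 W` (`Pool.Agent.Y667.BKP.H1f`, by helper667) is the group of the classes of the continuous
cocycles of the absolute Galois group with values in `V_3 W = T_3 W ⊗ ℚ_3` whose restriction to the
completion at every place is in the image of the Kummer map; this is the condition of Bloch and Kato.

The point counts (Gauss sums, the relation of Hasse and Davenport), the duality `a b² ↦ a² b` and the
families are in `Pool/Agent/N883`.  The finiteness of `E_N(K)`, the bound for the `3`-primary part of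
`Ш(E_N / K)` over these fields and the joint law of the twists are the joint work of the seats named in
the headers of `MP_ae0bd0_nt/FixedCubicRadicalFields`, `Pool/Agent/Y703/CT`, `Pool/Agent/R432/JG` and of
the files imported there.
-/

set_option autoImplicit false

namespace Pool.Agent.Results.MP_009fd8_ag.DiagonalCubicsSelmer

open scoped Classical
open NumberField IsDedekindDomain
open Pool.Agent.Y667.BKP (H1f)

/-- The solutions, not all zero, of `∑ a i x i ^ 3 = 0` in the field `F`. -/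
def solutions {m : ℕ} (a : Fin m → ℤ) (F : Type) [Field F] : Set (Fin m → F) :=
  {x | x ≠ 0 ∧ ∑ i, (a i : F) * x i ^ 3 = 0}

/-- `δ_T = ∏ a i ∏_{i ∈ T} a i`. -/
def twist {m : ℕ} (a : Fin m → ℤ) (T : Finset (Fin m)) : ℤ := (∏ i, a i) * ∏ i ∈ T, a i

/-- `X_a` has the dimension `n = 2 c + 1`.  For every place `v` of `K` that does not divide `B`: let
`β T` and its complex conjugate be the eigenvalues of the Frobenius of the curve
`y² + δ_T y = x³` over the residue field of `v`, which has `N` elements.  Then for all `r` and all the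
fields `F` with `N ^ r` elements the number of the nonzero solutions in `F` of the equation of `X_a` is
`(#F - 1) (1 + #F + ... + #F^n - ∑ ((N^c β T)^r + (N^c conj (β T))^r))`, the sum over all the sets
`T` of `c` indices. -/
def Decomposition (K : Type) [Field K] [NumberField K] (B c : ℕ) (a : Fin (2 * c + 3) → ℤ) :
    Prop :=
  ∀ v : HeightOneSpectrum (𝓞 K), (B : 𝓞 K) ∉ v.asIdeal →
    ∃ β : Finset (Fin (2 * c + 3)) → ℂ,
      (∀ T, β T * (starRingEnd ℂ) (β T) = Ideal.absNorm v.asIdeal ∧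
        (Nat.card {P : (𝓞 K ⧸ v.asIdeal) × (𝓞 K ⧸ v.asIdeal) //
          P.2 ^ 2 + ((twist a T : ℤ) : 𝓞 K ⧸ v.asIdeal) * P.2 = P.1 ^ 3} : ℂ) =
            Ideal.absNorm v.asIdeal - (β T + (starRingEnd ℂ) (β T))) ∧
      ∀ (F : Type) [Field F] [Finite F] (r : ℕ), Nat.card F = Ideal.absNorm v.asIdeal ^ r →
        ((solutions a F).ncard : ℂ) = (Nat.card F - 1) *
          (∑ i ∈ Finset.range (2 * c + 2), (Nat.card F : ℂ) ^ i -
            ∑ T ∈ (Finset.univ : Finset (Fin (2 * c + 3))).powersetCard c,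
              (((Ideal.absNorm v.asIdeal : ℂ) ^ c * β T) ^ r +
                ((Ideal.absNorm v.asIdeal : ℂ) ^ c * (starRingEnd ℂ) (β T)) ^ r))

/-- The curve `E_δ : y² + δ y = x³` over `K`. -/
def curve (K : Type) [Field K] (δ : ℤ) : WeierstrassCurve K := ⟨0, 0, (δ : K), 0, 0⟩

/-- `W` is an elliptic curve, and `W(K) ⊗ ℚ_3` and `H¹_f(K, V_3 W)` are zero. -/
def BothZero {K : Type} [Field K] [NumberField K] (W : WeierstrassCurve K) : Prop :=
  W.IsElliptic ∧ (∀ x : TensorProduct ℤ W.toAffine.Point ℚ_[3], x = 0) ∧ ∀ x : H1f 3 W, x = 0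

/-- `D` is squarefree, not divisible by `3`, not `±1` modulo `9`, not divisible by the elements of `M`,
and divisible by exactly one prime that is `2` modulo `3`. -/
def InClass (M : Finset ℕ) (D : ℕ) : Prop :=
  Squarefree D ∧ ¬ 3 ∣ D ∧ D % 9 ≠ 1 ∧ D % 9 ≠ 8 ∧ (∀ l ∈ M, ¬ l ∣ D) ∧
    ∃ q : ℕ, q.Prime ∧ q % 3 = 2 ∧ q ∣ D ∧ ∀ p : ℕ, p.Prime → p ∣ D → p ≠ q → p % 3 = 1

/-- In every factorization of `N` in coprime factors `d₀ d₁ d₂` for which `d₁ d₂²`, `d₂ d₀²`,
`d₀ d₁²` are cubes modulo the primes dividing `d₀`, `d₁`, `d₂` respectively, two factors are `1`. -/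
def HasNoSplitting (N : ℕ) : Prop :=
  ∀ d : ZMod 3 → ℕ, ∏ c, d c = N → (∀ c c', c ≠ c' → Nat.Coprime (d c) (d c')) →
    (∀ (c : ZMod 3) (p : ℕ), p.Prime → p ∣ d c →
      ∃ x : ℤ, (p : ℤ) ∣ (d (c + 1) : ℤ) * (d (c + 2) : ℤ) ^ 2 - x ^ 3) →
    ∃ c, ∀ c', c' ≠ c → d c' = 1

/-- All the `3 ^ #M` numbers `D ∏_{l ∈ M} l ^ (t l)` with exponents `0`, `1`, `2` have no splitting. -/
def Good (M : Finset ℕ) (D : ℕ) : Prop :=
  ∀ t : {l : ℕ // l ∈ M} → ZMod 3, HasNoSplitting (D * ∏ l : {l : ℕ // l ∈ M}, l.1 ^ (t l).val)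

/-- One `a i` is `± D` or `± D²`, and the others are not zero and only divisible by primes of `M`. -/
def IsForm (M : Finset ℕ) (D : ℕ) {m : ℕ} (a : Fin m → ℤ) : Prop :=
  ∃ j, ((a j).natAbs = D ∨ (a j).natAbs = D ^ 2) ∧
    ∀ i, i ≠ j → a i ≠ 0 ∧ ∀ p : ℕ, p.Prime → (p : ℤ) ∣ a i → p ∈ M

/-- `K = ℚ(∛l : l ∈ S)`. -/
def Generated (S : Finset ℕ) (K : Type) [Field K] : Prop :=
  ∃ r : ℕ → K, (∀ l ∈ S, r l ^ 3 = (l : K)) ∧ ∀ F : Subfield K, (∀ l ∈ S, r l ∈ F) → F = ⊤

open Pool.Agent.R432.JG (Cl cl_iff)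

/-- **Main theorem.**  `c₃ = ∏_{i ≥ 1} (1 - 3^{-i}) > 0.56`.  For every finite set `M` of primes `≡ 1`
modulo `9`: the number of the `D ≤ X` in the class is at least `c' X / √(log X)`; the proportion of the
good `D` tends to `c₃ ^ (3 ^ #M)`; and every good `D` of the class is good for `M ∪ {l}` for infinitely
many primes `l ≡ 1` modulo `9`, and for all the fields `K = ℚ(∛l : l ∈ S)`, `S ⊆ M` (they exist and
have the degree `3 ^ #S`), and for all the threefolds (`c = 1`) and all the fivefolds (`c = 2`) `X_a`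
that belong to `(M, D)`: the cohomology decomposes, and `E(K) ⊗ ℚ_3 = 0 = H¹_f(K, V_3 E)` for all the
curves `E = E_{δ_T}`. -/
theorem result :
    (0.56 : ℝ) < ∏' i : ℕ, (1 - (1 / 3 : ℝ) ^ (i + 1)) ∧
    ∀ M : Finset ℕ, (∀ l ∈ M, l.Prime ∧ l % 9 = 1) →
      (∃ c' : ℝ, 0 < c' ∧ ∃ X₀ : ℕ, ∀ X : ℕ, X₀ ≤ X →
        c' * X / Real.sqrt (Real.log X) ≤
          (((Finset.Icc 1 X).filter fun D => InClass M D).card : ℝ)) ∧
      Filter.Tendsto (fun X : ℕ =>
        (((Finset.Icc 1 X).filter fun D => InClass M D ∧ Good M D).card : ℝ) /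
          (((Finset.Icc 1 X).filter fun D => InClass M D).card : ℝ)) Filter.atTop
        (nhds ((∏' i : ℕ, (1 - (1 / 3 : ℝ) ^ (i + 1))) ^ (3 ^ M.card))) ∧
      ∀ D : ℕ, InClass M D → Good M D →
        {l : ℕ | l.Prime ∧ l % 9 = 1 ∧ ¬ l ∣ D ∧ l ∉ M ∧ Good (insert l M) D}.Infinite ∧
        ∀ S : Finset ℕ, S ⊆ M →
          (∃ (K : Type) (_ : Field K) (_ : NumberField K), Generated S K) ∧
          ∀ (K : Type) [Field K] [NumberField K], Generated S K →
            Module.finrank ℚ K = 3 ^ S.card ∧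
            ∀ c : ℕ, c = 1 ∨ c = 2 → ∀ a : Fin (2 * c + 3) → ℤ, IsForm M D a →
              Decomposition K (3 * D * ∏ l ∈ M, l) c a ∧
              ∀ T : Finset (Fin (2 * c + 3)), T.card = c → BothZero (curve K (twist a T)) := by
  refine ⟨Pool.Agent.R432.JG.c3_gt, fun M hM => ?_⟩
  have e1 : ∀ X : ℕ, (Finset.Icc 1 X).filter (fun D => InClass M D) =
      (Finset.Icc 1 X).filter fun D => Cl M D := fun X =>
    Finset.filter_congr fun D _ => (cl_iff M D).symm
  have e2 : ∀ X : ℕ, (Finset.Icc 1 X).filter (fun D => InClass M D ∧ Good M D) =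
      (Finset.Icc 1 X).filter fun D => Cl M D ∧
        Pool.Agent.R432.JG.AG M Finset.univ D := fun X =>
    Finset.filter_congr fun D _ => by
      rw [show InClass M D ↔ Cl M D from (cl_iff M D).symm]
      refine and_congr_right fun hC => ?_
      unfold Good Pool.Agent.R432.JG.AG
      exact ⟨fun h t _ => h t, fun h t => h t (Finset.mem_univ t)⟩
  have hcard : (Finset.univ : Finset ({l : ℕ // l ∈ M} → ZMod 3)).card = 3 ^ M.card := by
    rw [Finset.card_univ, Fintype.card_fun, ZMod.card, Fintype.card_coe]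
  refine ⟨?_, ?_, fun D hD hN => ?_⟩
  · simp only [e1]
    exact Pool.Agent.R432.JG.low hM
  · simp only [e1, e2]
    have h := Pool.Agent.R432.JG.law_all hM Finset.univ
    rw [hcard] at h
    exact h
  · have hC : Cl M D := (cl_iff M D).2 hD
    refine ⟨Pool.Agent.N883.DQ.more hM hC hN, fun S hS => ⟨Pool.Agent.R432.JG.exists_gen S,
      fun K _ _ hK => ?_⟩⟩
    obtain ⟨r, hr1, hr2⟩ := hK
    refine ⟨(Pool.Agent.N883.DQ.one_K hM hC hN hS r hr1 hr2).1, fun c hc a ha => ?_⟩
    obtain ⟨h1, h2⟩ := Pool.Agent.N883.DQ.one_BK hM hC hN hS r hr1 hr2 (c := c) (by omega) ha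
    exact ⟨h1, fun T _ => h2 T⟩

end Pool.Agent.Results.MP_009fd8_ag.DiagonalCubicsSelmer
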