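import Pool.Agent.N874.QM.Final
import Pool.Agent.N874.QM.Gnu
import Pool.Agent.N874.Jac.Def

/-!
# A positive proportion of all odd hyperelliptic Jacobians over totally real Galois 2-extensions of `ℚ`

Let `g ≥ 1` and let `M` be any Galois extension of `ℚ` of degree `2 ^ n` which has an embedding in `ℝ`
(so `M` is totally real) and an embedding in `ℚ_2` (so `2` splits completely). For example
`M = ℚ(√d_1, ..., √d_r)` with positive `d_i` congruent to 1 modulo 8, or the subfields of 2-power degree of
the real fields `ℚ(ζ_m)`, `m` a product of suitable primes; there are also many non-abelian ones.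

We consider ALL polynomials `f = x ^ (2 g + 1) + a_(2 g - 1) x ^ (2 g - 1) + ... + a_0` with integral
coefficients, ordered by the height: `|a_i| ≤ B ^ (2 g + 1 - i)`. (Every hyperelliptic curve of genus `g`
over `ℚ` with a rational Weierstrass point, and for `g = 1` every elliptic curve over `ℚ`, has an equation
`y ^ 2 = f(x)` with such an `f`.)

Theorem. For a positive proportion of them `f` is irreducible and the Jacobian `J` of `y ^ 2 = f(x)` has
the following properties over the number field `M`: multiplication by two is bijective on `J(M)`, and all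
classes of 2-power order in the Tate-Shafarevich group of `J` over `M` are zero.

Here `J(L)` is the Picard group of the affine coordinate ring `L[x, y] / (y ^ 2 - f)` (the curve has one
point at infinity, which is rational), and the Tate-Shafarevich group is defined by continuous cocycles on
the absolute Galois group of `M` with values in `J` of the separable closure which are trivial over the
completions at all finite places and over `ℝ` for all real embeddings.

By the theorem of Mordell and Weil `J(M)` is a finite group of odd order, so `J` has rank `0` over `M`. The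
2-primary part of the Tate-Shafarevich group of `J` over `M` is zero, hence for the curve `X` over `M` the
2-adic Abel-Jacobi map from the divisor classes of degree zero, tensored with `ℚ_2`, to the Bloch-Kato Selmer
group `H ^ 1_f (M, V_2 J)` is an isomorphism (both are zero). The same holds for the motives `h ^ 1(J) ⊗ ρ`
over `ℚ` for all representations `ρ` of `Gal(M / ℚ)`, the factors of the Weil restriction of `J` from `M` to
`ℚ`; for `M = ℚ(√d_1, ..., √d_r)` these are the `2 ^ r` quadratic twists of `J` by products of the `d_i`.

Proof. By a descent (project JB) it is enough that the 2-Selmer group in the explicit form of Cassels and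
Schaefer is trivial. `M = ℚ(γ)`. We consider the `f` which are irreducible modulo all small primes, in
particular modulo all the primes which are ramified in `M`, and which are `x h_q(x)`, `h_q` irreducible,
modulo `q ∈ S`; `S` is a large finite set of primes congruent to 1 modulo 8 which split completely in `M`. As
in the case `M = ℚ` (project PQ of helper783, `MP_a43263_nt.AllOddHyperelliptic`) reduction theory of pairs of
integral symmetric matrices, a reciprocity law and linear algebra give a subset `J` of `S` for which a
relaxed Selmer group over `ℚ` of the twist by the product of the `q ∈ J` is zero. The local conditions over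
`M` define a group of elements of `M(θ)` modulo squares which is stable under `Gal(M / ℚ)`; a descent along
the steps of degree two (as in project JM) shows that it is zero because its invariant part comes from the
Selmer group over `ℚ`.

Project QM: helper874, with helper783 (project PQ) and helper352 (project JB), with parts by helpers 42, 160,
222, 394, 438, 459, 521, 530, 711, 713, 756, 835, 849, 891, 999; parts of PQ by helpers 2, 7, 27, 73, 134, 216,
262, 271, 316, 322, 340, 346, 348, 383, 400, 456, 457, 488, 490, 498, 507, 595, 644, 691, 747, 755, 776, 833,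
850, 855, 878, 896, 951; of JB by helpers 106, 232, 424, 615, 655; of JM by helpers 123, 301, 738, 814.
-/

set_option autoImplicit false
set_option linter.all false

namespace Pool.Agent.Results.MP_009fd8_ag.JacobiansOverTwoExtensions

open Polynomial Filter IsDedekindDomain NumberField
open Pool.Agent.N874.Jac (UniquelyTwoDivisible ShaTwoTrivialReal)
open scoped Classical

/-- `f` is a monic integral polynomial of degree `2 g + 1` without term of degree `2 g` and of height at
most `B`. -/
structure IsPoly (g B : ℕ) (f : ℤ[X]) : Prop where
  monic : f.Monic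
  degree : f.natDegree = 2 * g + 1
  trace : f.coeff (2 * g) = 0
  height : ∀ j ≤ 2 * g, |f.coeff j| ≤ (B : ℤ) ^ (2 * g + 1 - j)

/-- The polynomials `f` of height at most `B`. -/
def Polys (g B : ℕ) : Set ℤ[X] := {f | IsPoly g B f}

/-- Multiplication by two is bijective on `J(M)`, `J` the Jacobian of `y ^ 2 = F(x)`, and the 2-primary
part of the Tate-Shafarevich group of `J` over `M` is zero. -/
def NoTwoPart {M : Type} [Field M] [NumberField M] (F : M[X]) : Prop :=
  UniquelyTwoDivisible F ∧ ShaTwoTrivialReal F (𝓞 M)

/-- The polynomials `f` of height at most `B` which are irreducible over `ℚ` and for which the Jacobian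
of `y ^ 2 = f(x)` has no 2-part over `M`. -/
def TrivialTwoPart (M : Type) [Field M] [NumberField M] (g B : ℕ) : Set ℤ[X] :=
  {f ∈ Polys g B | Irreducible (f.map (Int.castRingHom ℚ)) ∧ NoTwoPart (f.map (Int.castRingHom M))}

/-- For every `g ≥ 1` and every Galois extension `M` of `ℚ` of degree `2 ^ n` which can be embedded in `ℝ`
and in `ℚ_2` there is a positive constant `c` such that for all large `B` at least `c` times the number of
all the `f` of height at most `B` are irreducible and the Jacobian `J` of `y ^ 2 = f(x)` is such that
multiplication by two is bijective on `J(M)` and the 2-primary part of the Tate-Shafarevich group of `J` over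
`M` is zero. -/
theorem result (g : ℕ) (hg : 1 ≤ g) (M : Type) [Field M] [NumberField M] [IsGalois ℚ M] (n : ℕ)
    (hn : Module.finrank ℚ M = 2 ^ n) (h2 : Nonempty (M →+* ℚ_[2])) (hr : Nonempty (M →+* ℝ)) :
    (∀ B : ℕ, 1 ≤ B → (Polys g B).Finite) ∧
    ∃ c : ℝ, 0 < c ∧ ∀ᶠ B : ℕ in atTop, 0 < (Polys g B).ncard ∧
      c * ((Polys g B).ncard : ℝ) ≤ ((TrivialTwoPart M g B).ncard : ℝ) := by
  obtain ⟨τ⟩ := h2
  obtain ⟨ρ⟩ := hr
  have heq : ∀ B, Polys g B = {f : ℤ[X] | Pool.Agent.N783.PQ.Ht g B f} := by
    intro B
    ext f
    exact ⟨fun h => ⟨h.monic, h.degree, h.trace, h.height⟩, fun h => ⟨h.mon, h.deg, h.tr, h.ht⟩⟩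
  have hfin : ∀ B : ℕ, 1 ≤ B → (Polys g B).Finite := by
    intro B hB
    rw [heq]
    exact (Pool.Agent.N400.PQ.ht_card g B hB).1
  refine ⟨hfin, ?_⟩
  obtain ⟨c, hc, B₀, hB₀⟩ := Pool.Agent.N874.QM.final hg M τ ρ n hn
  refine ⟨c, hc, ?_⟩
  filter_upwards [eventually_ge_atTop B₀, eventually_ge_atTop 1] with B hB hB1
  obtain ⟨hHt, hle⟩ := hB₀ B hB
  have hsub : {f : ℤ[X] | Pool.Agent.N783.PQ.Ht g B f ∧ Irreducible (Pool.Agent.N783.PQ.ov ℚ f) ∧
      Pool.Agent.N874.QM.SelM M (f.map (algebraMap ℤ M))} ⊆ TrivialTwoPart M g B := by
    rintro f ⟨h1, h3, h4⟩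
    have h5 := Pool.Agent.N874.QM.genuine M hn h1.mon
      (by rw [h1.deg]; exact odd_two_mul_add_one g) h3 h4
    refine ⟨⟨h1.mon, h1.deg, h1.tr, h1.ht⟩, h3, ?_⟩
    have e : f.map (Int.castRingHom M) = f.map (algebraMap ℤ M) := by
      congr 1
    rw [e]
    exact h5
  have hfin2 : (TrivialTwoPart M g B).Finite := (hfin B hB1).subset fun f hf => hf.1
  have h1 := Set.ncard_le_ncard hsub hfin2
  rw [heq]
  refine ⟨?_, hle.trans (by exact_mod_cast h1)⟩
  rw [Set.ncard_pos hHt]
  refine ⟨X ^ (2 * g + 1), monic_X_pow _, natDegree_X_pow _, ?_, fun j hj => ?_⟩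
  · rw [coeff_X_pow, if_neg (by omega)]
  · rw [coeff_X_pow, if_neg (by omega), abs_zero]
    positivity

end Pool.Agent.Results.MP_009fd8_ag.JacobiansOverTwoExtensions
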