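import Mathlib
import Pool.Agent.N843.BB.Eig
import Pool.Agent.N843.CK.Nf
import Pool.Agent.Results.MP_787500_nt.OddWeightsNaturalDensity

/-!
# The Abel–Jacobi map and the Bloch–Kato Selmer group for the intersections of two quadrics in `P⁵`
# over `ℚ(√-7)` whose intermediate Jacobian is a product of twists of `X_0(49)`: exact natural density

`K = ℚ(√-7)` with the ring of integers `ℤ[ω]`, `ω² = ω - 2`. For `D` in `ℤ[ω]` let `E_D` be the
quadratic twist by `D` of `X_0(49)` over `K`. For `D`, `D'` in `ℤ[ω]` we consider the smooth complete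
intersections `X ⊂ P⁵` of two quadrics over `K` which are the base loci of the pencils with the
discriminant curve (up to squares)
`C : y² = (9 + 3 ω) D (D D' x² - 1) (D D' x² + ω⁴) (D D' x² - ω⁸)`
of genus two, and the motive `M = h³(X)(2)` of weight `-1`, which is polarized. Here `CH(M)⁰` is
`CH²(X)_0 ⊗ ℚ = J(C)(K) ⊗ ℚ`, and `J(C)` is isogenous to `E_D × E_{D'}`.

* For all nonzero `D`, `D'` the numbers of points of `X` over all finite fields `k` over `ℤ[ω]` in which
  `42 D D' m` is not zero are `1 + q + q² + q³ - q (a_k(E_D) + a_k(E_{D'}))`, `a_k(E) = q + 1 - #E(k)`. So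
  `M_2` is `V_2(E_D) ⊕ V_2(E_{D'})`.
* Let `(D; d_1, …, d_n)` be good if all the `D ∏_{i ∈ T} d_i` are, up to squares, squarefree elements `B`
  of `ℤ[ω]`, prime to `√-7`, with `B ≡ 1 mod 4` and such that `E_B(K)` is finite and `Ш(E_B/K)` has no
  element of order two. If `(D; d)` and `(D'; d)` are good then **for all the `X` as above**
  `H¹_f(L, M_2) = 0` over `L = K(√d_1, …, √d_n)`: the conjecture is true for `M` over `L` and `p = 2`,
  and both sides are `0`.
* For `n = 0`: the `D ≡ 1 mod 4` with this property have the natural density **exactly**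
  `c2 = ∏_{i ≥ 1} (1 - 2^(-i)) = 0.288…`, ordered by the norm, and the rational ones (all squarefree
  `D ≥ 1`, `D ≡ 1 mod 4`, `7 ∤ D`) the density `c / 2 = 0.2097…`, `c = ∏_{i ≥ 0} (1 - 2^(-2i-1))`. For
  `D = D'` there is an `X` for every `D`: the twists by `D` of one intersection of two quadrics.

The vanishing of the Selmer groups of the curves is the theorem `MP_787500_nt/OddWeightsNaturalDensity`
of helper848; the points of the base loci of pencils over finite fields are treated in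
`Pool/Agent/N844/QP` (helper844).
-/

set_option autoImplicit false

namespace Pool.Agent.Results.MP_009fd8_ag.QuadricPencilsOverK

open Pool.Agent.Results.MP_787500_nt.OddWeightsNaturalDensity (QBar OK emb K gen Gal Chr ED EK tw Iso
  TateModule SelmerZero GalL chi Good GoodQ Adm AdmQ RankZeroShaTwo twist HasDensity HasDensityQ c2 c)
open WeierstrassCurve Filter Matrix
open scoped LinearAlgebra.Projectivization

/-! ### The intersections of two quadrics -/

/-- The element `ω` of `ℤ[ω]`. -/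
def om : OK := ⟨0, 1⟩

/-- The pencils of quadrics `x A - B` in `P⁵` over `ℤ[ω]` with the discriminant
`- det (x A - B) = (9 + 3 ω) D m² (D D' x² - 1) (D D' x² + ω⁴) (D D' x² - ω⁸)`. -/
structure IsPencil (D D' m : OK) (A B : Matrix (Fin 6) (Fin 6) OK) : Prop where
  symA : A.IsSymm
  symB : B.IsSymm
  disc : ∀ x : OK, -(x • A - B).det = (9 + 3 * om) * D * m ^ 2 * ((D * D' * x ^ 2 - 1) *
    (D * D' * x ^ 2 + om ^ 4) * (D * D' * x ^ 2 - om ^ 8))

/-- The quadratic form of a matrix. -/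
def qf {R : Type*} [CommRing R] {N : ℕ} (M : Matrix (Fin N) (Fin N) R) (y : Fin N → R) : R :=
  y ⬝ᵥ (M *ᵥ y)

/-- The base locus `X` of the pencil is smooth over the field `k` (the Jacobian criterion at the points
over `k`); `k` is a field over `ℤ[ω]` by `φ`. -/
def Smooth (A B : Matrix (Fin 6) (Fin 6) OK) {k : Type} [Field k] (φ : OK →+* k) : Prop :=
  ∀ y : Fin 6 → k, y ≠ 0 → qf (A.map φ) y = 0 → qf (B.map φ) y = 0 →
    LinearIndependent k ![A.map φ *ᵥ y, B.map φ *ᵥ y]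

/-- The number of points over `k` of the base locus `X ⊂ P⁵` of the pencil. -/
noncomputable def numP (A B : Matrix (Fin 6) (Fin 6) OK) {k : Type} [Field k] (φ : OK →+* k) : ℕ :=
  Nat.card {P : ℙ k (Fin 6 → k) // qf (A.map φ) P.rep = 0 ∧ qf (B.map φ) P.rep = 0}

/-- Another equation of `E_d`: `y² = x³ - 3 d x² - 32 d² x - 64 d³`. -/
def model {R : Type} [CommRing R] (d : R) : WeierstrassCurve R :=
  ⟨0, -3 * d, 0, -32 * d ^ 2, -64 * d ^ 3⟩

/-- The number `q - #{affine points} = q + 1 - #E_d(k)` for the finite field `k`. -/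
noncomputable def trace {k : Type} [Field k] (d : k) : ℤ :=
  (Nat.card k : ℤ) - Nat.card {x : k × k // (model d).toAffine.Equation x.1 x.2}

/-- The base locus `X` of the pencil is smooth, and its third cohomology is that of `E_D` and `E_{D'}`:
over all finite fields `k` over `ℤ[ω]` in which `42 D D' m` is not zero, the number of points of `X` is
`1 + q + q² + q³ - q (a_k(E_D) + a_k(E_{D'}))`. -/
def Decomposition (D D' m : OK) (A B : Matrix (Fin 6) (Fin 6) OK) : Prop :=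
  (∀ (k : Type) [Field k] [CharZero k] (φ : OK →+* k), Smooth A B φ) ∧
  (∀ (k : Type) [Field k] (φ : OK →+* k), φ (42 * (D * D' * m)) ≠ 0 → Smooth A B φ) ∧
  ∀ (k : Type) [Field k] [Finite k] (φ : OK →+* k), φ (42 * (D * D' * m)) ≠ 0 →
    (numP A B φ : ℤ) = 1 + Nat.card k + Nat.card k ^ 2 + Nat.card k ^ 3 -
      Nat.card k * (trace (φ D) + trace (φ D'))

/-- `H¹_f(L, V_2(E_M)) = 0` for `L = K(√d_1, …, √d_n)`: the two equations of `E_M` are isomorphic to the
elliptic curve `ED w (tw M)`, the Galois group acts on its `2`-adic Tate module by `κ`, `κ'`, and the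
Selmer groups over `L` of `ℚ_2(κ)` and of `ℚ_2(κ')` are zero. -/
def Vanishing (w : QBar) (M : OK) {n : ℕ} (d : Fin n → OK) : Prop :=
  Iso (EK w M) (ED w (tw M)) ∧ Iso (model (emb (gen w) M)) (ED w (tw M)) ∧
    (ED w (tw M)).IsElliptic ∧
  ∃ κ κ' : Chr w, TateModule (tw M) κ κ' ∧
    ∀ s : Fin n → QBar, (∀ i, s i ^ 2 = emb w (d i)) →
      SelmerZero (1 - w) (GalL w s) κ ∧ SelmerZero w (GalL w s) κ'

/-- The conjecture over `L = K(√d_1, …, √d_n)` for `p = 2` and the motives `h³(X)(2)`, both sides being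
zero, for all the intersections `X` of two quadrics of the pair `(M, M')`. -/
def AbelJacobi (w : QBar) (M M' : OK) {n : ℕ} (d : Fin n → OK) : Prop :=
  Vanishing w M d ∧ Vanishing w M' d ∧
    ∀ m : OK, m ≠ 0 → ∀ A B : Matrix (Fin 6) (Fin 6) OK, IsPencil M M' m A B →
      Decomposition M M' m A B

/-- `(9 + 3 ω) D² y₀² + D (y₁² + y₂² + y₃²) + D² y₄² - y₅²` -/
def exA (D : OK) : Matrix (Fin 6) (Fin 6) OK :=
  !![(9 + 3 * om) * D ^ 2, 0, 0, 0, 0, 0;
     0, D, 0, 0, 0, 0;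
     0, 0, D, 0, 0, 0;
     0, 0, 0, D, 0, 0;
     0, 0, 0, 0, D ^ 2, 0;
     0, 0, 0, 0, 0, -1]

/-- `(9 + 3 ω) D y₀² - y₁² + ω⁴ y₂² - ω⁴ y₃² + 2 ω² y₄ y₅` -/
def exB (D : OK) : Matrix (Fin 6) (Fin 6) OK :=
  !![(9 + 3 * om) * D, 0, 0, 0, 0, 0;
     0, -1, 0, 0, 0, 0;
     0, 0, om ^ 4, 0, 0, 0;
     0, 0, 0, -om ^ 4, 0, 0;
     0, 0, 0, 0, 0, om ^ 2;
     0, 0, 0, 0, om ^ 2, 0]

/-! ### The proof -/

section proof

lemma ex_pencil (D : OK) : IsPencil D D 1 (exA D) (exB D) where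
  symA := by
    unfold exA
    refine Matrix.ext fun i j => ?_
    fin_cases i <;> fin_cases j <;> rfl
  symB := by
    unfold exB
    refine Matrix.ext fun i j => ?_
    fin_cases i <;> fin_cases j <;> rfl
  disc := by
    intro x
    unfold exA exB
    generalize om = o
    simp [Matrix.det_succ_row_zero, Fin.sum_univ_succ, Fin.succAbove]
    ring

lemma map_ne {k : Type} [Field k] [CharZero k] (φ : OK →+* k) {x : OK} (hx : x ≠ 0) : φ x ≠ 0 := by
  intro h
  have h1 := congrArg φ (Pool.Agent.N843.K.mul_cjO x)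
  rw [map_mul, h, zero_mul, map_intCast] at h1
  have h2 : Pool.Agent.N843.K.nm x = 0 := by exact_mod_cast h1.symm
  exact (Pool.Agent.N843.K.nm_pos hx).ne' h2

lemma ok_of {D D' m : OK} {k : Type} [Field k] (φ : OK →+* k) (h0 : φ (42 * (D * D' * m)) ≠ 0) :
    Pool.Agent.N843.BB.Ok (φ Pool.Agent.R384.om) ∧ φ D ≠ 0 ∧ φ D' ≠ 0 ∧ φ m ≠ 0 := by
  have n0 : ∀ x : OK, x ∣ 42 * (D * D' * m) → φ x ≠ 0 := by
    intro x hx h1
    obtain ⟨c, hc⟩ := hx
    apply h0
    rw [hc, map_mul, h1, zero_mul]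
  have k2 : (2 : k) ≠ 0 := by
    have := n0 2 ⟨21 * (D * D' * m), by ring⟩
    rwa [map_ofNat] at this
  have k3 : (3 : k) ≠ 0 := by
    have := n0 3 ⟨14 * (D * D' * m), by ring⟩
    rwa [map_ofNat] at this
  have k7 : (7 : k) ≠ 0 := by
    have := n0 7 ⟨6 * (D * D' * m), by ring⟩
    rwa [map_ofNat] at this
  exact ⟨Pool.Agent.N843.BB.ok_map φ k2 k3 k7, n0 D ⟨42 * (D' * m), by ring⟩,
    n0 D' ⟨42 * (D * m), by ring⟩, n0 m ⟨42 * (D * D'), by ring⟩⟩

lemma smooth_of {D D' m : OK} {A B : Matrix (Fin 6) (Fin 6) OK} (h : IsPencil D D' m A B)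
    {k : Type} [Field k] (φ : OK →+* k) (h0 : φ (42 * (D * D' * m)) ≠ 0) : Smooth A B φ := by
  obtain ⟨hok, hD, hD', hm⟩ := ok_of φ h0
  have h' : Pool.Agent.N843.BB.IsPencil D D' m A B := ⟨h.symA, h.symB, h.disc⟩
  intro y hy h6 h7
  exact h'.smooth hok hD hD' hm hy h6 h7

lemma trace_eq {k : Type} [Field k] [Fintype k] [DecidableEq k] (h2 : (2 : k) ≠ 0) (d : k) :
    trace d = -Pool.Agent.N843.BB.SK d := by
  have hk : ringChar k ≠ 2 := by
    intro h0
    apply h2
    have := ringChar.spec k 2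
    rw [h0] at this
    exact_mod_cast this.2 dvd_rfl
  have h1 : (Nat.card {x : k × k // (model d).toAffine.Equation x.1 x.2} : ℤ) =
      Fintype.card k + Pool.Agent.N843.BB.SK d := Pool.Agent.N843.BB.cnt_SK hk d
  unfold trace
  rw [h1, Nat.card_eq_fintype_card]
  ring

lemma dec_of {D D' m : OK} (hD : D ≠ 0) (hD' : D' ≠ 0) (hm : m ≠ 0)
    {A B : Matrix (Fin 6) (Fin 6) OK} (h : IsPencil D D' m A B) : Decomposition D D' m A B := by
  refine ⟨fun k _ _ φ => smooth_of h φ (map_ne φ ?_), fun k _ φ h0 => smooth_of h φ h0,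
    fun k _ _ φ h0 => ?_⟩
  · exact mul_ne_zero (by norm_num) (mul_ne_zero (mul_ne_zero hD hD') hm)
  · classical
    let _ : Fintype k := Fintype.ofFinite k
    obtain ⟨hok, g1, g2, g3⟩ := ok_of φ h0
    have h' : Pool.Agent.N843.BB.IsPencil D D' m A B := ⟨h.symA, h.symB, h.disc⟩
    have h1 : (numP A B φ : ℤ) = _ := h'.numP hok g1 g2 g3
    rw [h1, trace_eq hok.h2, trace_eq hok.h2, Nat.card_eq_fintype_card]
    ring

lemma chi_one {w : QBar} (κ κ' : Chr w) : chi κ κ' 1 = κ := by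
  refine MonoidHom.ext fun σ => ?_
  show κ σ ^ (1 : ℤ) * κ' σ ^ (1 - 1 : ℤ) = κ σ
  rw [sub_self, zpow_zero, mul_one, zpow_one]

lemma chi_zero {w : QBar} (κ κ' : Chr w) : chi κ κ' 0 = κ' := by
  refine MonoidHom.ext fun σ => ?_
  show κ σ ^ (0 : ℤ) * κ' σ ^ (1 - 0 : ℤ) = κ' σ
  rw [sub_zero, zpow_zero, one_mul, zpow_one]

lemma van_of {w : QBar} (hw : w ^ 2 = w - 2) {M : OK} {n : ℕ} {d : Fin n → OK}
    (h : Pool.Agent.Results.MP_787500_nt.OddWeightsNaturalDensity.AllWeights w M d) :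
    Vanishing w M d := by
  obtain ⟨h1, h2, κ, κ', h3, h4⟩ := h
  refine ⟨h1, Pool.Agent.N843.K.isoS hw M, h2, κ, κ', h3, fun s hs => ?_⟩
  have h5 := h4 s hs 1 one_pos odd_one
  rw [sub_self, chi_one, chi_zero] at h5
  exact h5

lemma good_ne {w : QBar} {M : OK} {n : ℕ} {d : Fin n → OK} (h : Good w M d) : M ≠ 0 := by
  obtain ⟨D, z, hz, hD, -, he⟩ := h ∅
  rw [Finset.prod_empty, mul_one] at he
  rw [he]
  exact mul_ne_zero hD.1.ne_zero (pow_ne_zero 2 hz)

end proof

/-- **The conjecture for `p = 2` and the third cohomology of the intersections of two quadrics in `P⁵`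
over the fields `L`, both sides being zero, and the natural densities.** -/
theorem result : (∀ D D' m : OK, D ≠ 0 → D' ≠ 0 → m ≠ 0 → ∀ A B : Matrix (Fin 6) (Fin 6) OK,
      IsPencil D D' m A B → Decomposition D D' m A B) ∧
    ∀ w : QBar, w ^ 2 = w - 2 →
    (∀ (M M' : OK) (n : ℕ) (d : Fin n → OK), Good w M d → Good w M' d → AbelJacobi w M M' d) ∧
    (∀ D D' : OK, Adm D → Adm D' → RankZeroShaTwo (EK w D) → RankZeroShaTwo (EK w D') →
      AbelJacobi w D D' (n := 0) Fin.elim0) ∧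
    (∀ D D' : ℕ, AdmQ D → AdmQ D' → RankZeroShaTwo (twist (D : ℚ)) →
      RankZeroShaTwo (twist (D' : ℚ)) → AbelJacobi w D D' (n := 0) Fin.elim0) ∧
    (∀ D : OK, IsPencil D D 1 (exA D) (exB D)) ∧
    HasDensity (fun D => RankZeroShaTwo (EK w D)) c2 ∧
    HasDensityQ (fun D => RankZeroShaTwo (twist (D : ℚ))) (c / 2) ∧
    0.288 < c2 ∧ c2 < 0.289 ∧ 0.2097 < c / 2 ∧ c / 2 < 0.2098 := by
  refine ⟨fun D D' m hD hD' hm A B h => dec_of hD hD' hm h, fun w hw => ?_⟩
  obtain ⟨H, h5, h6, h7, h8, h9⟩ := Pool.Agent.Results.MP_787500_nt.OddWeightsNaturalDensity.result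
  obtain ⟨h1, h2, h3, -, -, h4⟩ := H w hw
  refine ⟨fun M M' n d h h' => ⟨van_of hw (h1 M n d h), van_of hw (h1 M' n d h'),
    fun m hm A B hAB => dec_of (good_ne h) (good_ne h') hm hAB⟩,
    fun D D' hD hD' h h' => ⟨van_of hw (h2 D hD h).1, van_of hw (h2 D' hD' h').1,
    fun m hm A B hAB => dec_of hD.1.ne_zero hD'.1.ne_zero hm hAB⟩,
    fun D D' hD hD' h h' => ⟨van_of hw (h4 D hD h).1, van_of hw (h4 D' hD' h').1,
    fun m hm A B hAB => dec_of ?_ ?_ hm hAB⟩, ex_pencil, h3, h5, h6, h7, ?_, ?_⟩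
  · exact_mod_cast hD.1.ne_zero
  · exact_mod_cast hD'.1.ne_zero
  · linarith
  · linarith

end Pool.Agent.Results.MP_009fd8_ag.QuadricPencilsOverK
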